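import Pool.Agent.R136.Inv3

/-!
# MP_eb5881_co: the two descent statistics on involutions of `B_n` are equidistributed

The proof sends a signed involution `w` with window `w(i+1) = ± (σ i + 1)` and a word
`a_1 ≤ a_2 ≤ ... ≤ a_n` compatible with the descents of `w` to the word of triples
`(a_j, sign of w(j), a_{σ j})`, sorted by a key which depends on the order. Sorting by the key of the
other order does not change the first coordinates. So for each set `S` of positions the numbers of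
involutions with all descents in `S` agree for the two orders, and so do the distributions of the
descent sets.
-/

set_option autoImplicit false

open Pool.Agent.R136.Inv Finset

namespace Pool.Agent.Results.MP_eb5881_co.DescentSets

/-- The involutions of `B_n`: bijections `w` of `ℤ` with `w (-a) = - w a`, which fix all integers of
absolute value larger than `n` (and so `0`), and with `w (w a) = a`. -/
def InvB (n : ℕ) : Set (Equiv.Perm ℤ) :=
  {w | (∀ a : ℤ, w (-a) = -(w a)) ∧ (∀ a : ℤ, (n : ℤ) < |a| → w a = a) ∧ ∀ a : ℤ, w (w a) = a}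

/-- The order `-1 < -2 < -3 < ... < 0 < 1 < 2 < ...` on `ℤ`. -/
def rlt (x y : ℤ) : Prop :=
  (x < 0 ∧ y < 0 ∧ |x| < |y|) ∨ (x < 0 ∧ 0 ≤ y) ∨ (0 ≤ x ∧ x < y)

open Classical in
/-- The descent set for the order `rlt`: the `i` in `{0, ..., n-1}` with `w i` larger than `w (i+1)`. -/
noncomputable def desSetR (n : ℕ) (w : Equiv.Perm ℤ) : Finset ℕ :=
  (range n).filter (fun i => rlt (w ((i : ℤ) + 1)) (w (i : ℤ)))

/-- The descent set for the usual order: the `i` in `{0, ..., n-1}` with `w i > w (i+1)`. -/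
def desSetN (n : ℕ) (w : Equiv.Perm ℤ) : Finset ℕ :=
  (range n).filter (fun i => w (i : ℤ) > w ((i : ℤ) + 1))

/-! ### Passing between involutions of `ℤ` and pairs `(σ, ε)` -/

variable {n : ℕ}

/-- the signed permutation of `ℤ` defined by `(σ, ε)`. -/
def toZ (p : Equiv.Perm (Fin n) × (Fin n → Bool)) (a : ℤ) : ℤ :=
  if h : 1 ≤ a.natAbs ∧ a.natAbs ≤ n then
    a.sign * ((if p.2 ⟨a.natAbs - 1, by omega⟩ = true then -1 else 1) *
      (((p.1 ⟨a.natAbs - 1, by omega⟩ : ℕ) : ℤ) + 1))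
  else a

lemma toZ_succ (p : Equiv.Perm (Fin n) × (Fin n → Bool)) (i : ℕ) (hi : i < n) :
    toZ p ((i : ℤ) + 1) = (if p.2 ⟨i, hi⟩ = true then -1 else 1) * (((p.1 ⟨i, hi⟩ : ℕ) : ℤ) + 1) := by
  have e : ((i : ℤ) + 1).natAbs = i + 1 := by omega
  have h : 1 ≤ ((i : ℤ) + 1).natAbs ∧ ((i : ℤ) + 1).natAbs ≤ n := by omega
  have hs : ((i : ℤ) + 1).sign = 1 := Int.sign_eq_one_of_pos (by omega)
  rw [toZ, dif_pos h, hs, one_mul]
  simp only [e, Nat.add_sub_cancel]

lemma toZ_neg (p : Equiv.Perm (Fin n) × (Fin n → Bool)) (a : ℤ) : toZ p (-a) = - toZ p a := by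
  unfold toZ
  by_cases h : 1 ≤ a.natAbs ∧ a.natAbs ≤ n
  · have h' : 1 ≤ (-a).natAbs ∧ (-a).natAbs ≤ n := by rw [Int.natAbs_neg]; exact h
    rw [dif_pos h, dif_pos h']
    simp only [Int.natAbs_neg, Int.sign_neg]
    ring
  · have h' : ¬ (1 ≤ (-a).natAbs ∧ (-a).natAbs ≤ n) := by rw [Int.natAbs_neg]; exact h
    rw [dif_neg h, dif_neg h']

lemma toZ_zero (p : Equiv.Perm (Fin n) × (Fin n → Bool)) : toZ p 0 = 0 := by
  have := toZ_neg p 0
  rw [neg_zero] at this
  omega

lemma toZ_pos_invol (p : Equiv.Perm (Fin n) × (Fin n → Bool)) (hp : IsInv p) (i : ℕ) (hi : i < n) :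
    toZ p (toZ p ((i : ℤ) + 1)) = (i : ℤ) + 1 := by
  rw [toZ_succ p i hi]
  have h1 := hp ⟨i, hi⟩
  have h2 := toZ_succ p (p.1 ⟨i, hi⟩ : ℕ) (p.1 ⟨i, hi⟩).isLt
  have e : (⟨(p.1 ⟨i, hi⟩ : ℕ), (p.1 ⟨i, hi⟩).isLt⟩ : Fin n) = p.1 ⟨i, hi⟩ := rfl
  rw [e, h1.1, h1.2] at h2
  cases hb : p.2 ⟨i, hi⟩
  · rw [hb] at h2
    simp only [Bool.false_eq_true, if_false, one_mul] at h2 ⊢
    exact h2
  · rw [hb] at h2
    simp only [if_true] at h2 ⊢
    rw [show (-1 : ℤ) * (((p.1 ⟨i, hi⟩ : ℕ) : ℤ) + 1) = -((((p.1 ⟨i, hi⟩ : ℕ) : ℤ) + 1)) by ring,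
      toZ_neg, h2]
    ring

lemma int_cases (n : ℕ) (a : ℤ) : (n : ℤ) < |a| ∨ a = 0 ∨ (∃ i : ℕ, i < n ∧ a = (i : ℤ) + 1) ∨
    (∃ i : ℕ, i < n ∧ a = -((i : ℤ) + 1)) := by
  rcases lt_trichotomy a 0 with h | h | h
  · by_cases h2 : (n : ℤ) < |a|
    · left; exact h2
    · right; right; right
      rw [abs_of_neg h] at h2
      exact ⟨(-a - 1).toNat, by omega, by omega⟩
  · right; left; exact h
  · by_cases h2 : (n : ℤ) < |a|
    · left; exact h2
    · right; right; left
      rw [abs_of_pos h] at h2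
      exact ⟨(a - 1).toNat, by omega, by omega⟩

lemma toZ_large (p : Equiv.Perm (Fin n) × (Fin n → Bool)) (a : ℤ) (h : (n : ℤ) < |a|) :
    toZ p a = a := by
  rw [toZ, dif_neg]
  rw [Int.abs_eq_natAbs] at h
  omega

lemma toZ_invol (p : Equiv.Perm (Fin n) × (Fin n → Bool)) (hp : IsInv p) (a : ℤ) :
    toZ p (toZ p a) = a := by
  rcases int_cases n a with h | h | ⟨i, hi, rfl⟩ | ⟨i, hi, rfl⟩
  · rw [toZ_large p a h, toZ_large p a h]
  · rw [h, toZ_zero, toZ_zero]
  · exact toZ_pos_invol p hp i hi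
  · rw [toZ_neg, toZ_neg, toZ_pos_invol p hp i hi]

/-- the involution of `ℤ`. -/
def toPerm (p : {p : Equiv.Perm (Fin n) × (Fin n → Bool) // IsInv p}) : Equiv.Perm ℤ :=
  ⟨toZ p.1, toZ p.1, toZ_invol p.1 p.2, toZ_invol p.1 p.2⟩

lemma toPerm_apply (p : {p : Equiv.Perm (Fin n) × (Fin n → Bool) // IsInv p}) (a : ℤ) :
    toPerm p a = toZ p.1 a := rfl

lemma toPerm_mem (p : {p : Equiv.Perm (Fin n) × (Fin n → Bool) // IsInv p}) :
    toPerm p ∈ InvB n :=
  ⟨fun a => toZ_neg p.1 a, fun a h => toZ_large p.1 a h, fun a => toZ_invol p.1 p.2 a⟩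

lemma toPerm_inj : Function.Injective (toPerm (n := n)) := by
  intro p q h
  have hh : ∀ i : Fin n, p.1.2 i = q.1.2 i ∧ p.1.1 i = q.1.1 i := by
    intro i
    have h1 := congrArg (fun w : Equiv.Perm ℤ => w ((i.val : ℤ) + 1)) h
    simp only [toPerm_apply] at h1
    rw [toZ_succ p.1 i.val i.isLt, toZ_succ q.1 i.val i.isLt] at h1
    have e : (⟨i.val, i.isLt⟩ : Fin n) = i := rfl
    rw [e] at h1
    cases hp : p.1.2 i <;> cases hq : q.1.2 i <;> rw [hp, hq] at h1 <;>
      simp only [Bool.false_eq_true, if_false, if_true, one_mul] at h1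
    · exact ⟨rfl, Fin.ext (by omega)⟩
    · exfalso; omega
    · exfalso; omega
    · exact ⟨rfl, Fin.ext (by omega)⟩
  apply Subtype.ext
  apply Prod.ext
  · exact Equiv.ext fun i => (hh i).2
  · funext i; exact (hh i).1

lemma toPerm_surj (w : Equiv.Perm ℤ) (hw : w ∈ InvB n) : ∃ p, toPerm (n := n) p = w := by
  obtain ⟨hneg, hbig, hinv⟩ := hw
  have h0 : w 0 = 0 := by
    have := hneg 0
    rw [neg_zero] at this
    omega
  have hrange : ∀ i : Fin n, 1 ≤ (w ((i.val : ℤ) + 1)).natAbs ∧ (w ((i.val : ℤ) + 1)).natAbs ≤ n := by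
    intro i
    constructor
    · by_contra hcon
      have h1 : w ((i.val : ℤ) + 1) = 0 := by omega
      have h2 := hinv ((i.val : ℤ) + 1)
      rw [h1, h0] at h2
      omega
    · by_contra hcon
      have h1 : (n : ℤ) < |w ((i.val : ℤ) + 1)| := by
        rw [Int.abs_eq_natAbs]; omega
      have h2 := hbig _ h1
      rw [hinv] at h2
      rw [← h2, abs_of_pos (by omega)] at h1
      have := i.isLt
      omega
  let σ : Fin n → Fin n := fun i => ⟨(w ((i.val : ℤ) + 1)).natAbs - 1, by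
    have := hrange i
    omega⟩
  have hσv : ∀ i : Fin n, ((σ i : ℕ) : ℤ) + 1 = ((w ((i.val : ℤ) + 1)).natAbs : ℤ) := by
    intro i
    have := hrange i
    show (((w ((i.val : ℤ) + 1)).natAbs - 1 : ℕ) : ℤ) + 1 = _
    omega
  have hσw : ∀ i : Fin n, w (((σ i : ℕ) : ℤ) + 1) =
      if w ((i.val : ℤ) + 1) < 0 then -((i.val : ℤ) + 1) else (i.val : ℤ) + 1 := by
    intro i
    rw [hσv i]
    split_ifs with h
    · have e : ((w ((i.val : ℤ) + 1)).natAbs : ℤ) = - w ((i.val : ℤ) + 1) := by omega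
      rw [e, hneg, hinv]
    · have e : ((w ((i.val : ℤ) + 1)).natAbs : ℤ) = w ((i.val : ℤ) + 1) := by omega
      rw [e, hinv]
  have hσ : Function.Involutive σ := by
    intro i
    apply Fin.ext
    show (w (((σ i : ℕ) : ℤ) + 1)).natAbs - 1 = i.val
    rw [hσw i]
    split_ifs <;> omega
  let p : Equiv.Perm (Fin n) × (Fin n → Bool) :=
    (hσ.toPerm σ, fun i => decide (w ((i.val : ℤ) + 1) < 0))
  have hp : IsInv p := by
    intro i
    refine ⟨hσ i, ?_⟩
    show decide (w (((σ i : ℕ) : ℤ) + 1) < 0) = decide (w ((i.val : ℤ) + 1) < 0)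
    rw [hσw i]
    split_ifs with h
    · simp only [h, decide_true, decide_eq_true_eq]
      omega
    · simp only [h, decide_false, decide_eq_false_iff_not]
      omega
  refine ⟨⟨p, hp⟩, ?_⟩
  have hpos : ∀ i : ℕ, i < n → toZ p ((i : ℤ) + 1) = w ((i : ℤ) + 1) := by
    intro i hi
    rw [toZ_succ p i hi]
    show (if decide (w ((i : ℤ) + 1) < 0) = true then (-1 : ℤ) else 1) *
      (((σ ⟨i, hi⟩ : ℕ) : ℤ) + 1) = _
    rw [hσv ⟨i, hi⟩]
    simp only [decide_eq_true_eq]
    split_ifs with h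
    · omega
    · omega
  ext a
  rw [toPerm_apply]
  rcases int_cases n a with h | h | ⟨i, hi, rfl⟩ | ⟨i, hi, rfl⟩
  · rw [toZ_large p a h, hbig a h]
  · rw [h, toZ_zero, h0]
  · exact hpos i hi
  · rw [toZ_neg, hpos i hi, hneg]

/-! ### Comparison of the descent sets -/

lemma V_false (p : Equiv.Perm (Fin n) × (Fin n → Bool)) (i : ℕ) (hi : i < n) :
    V false p ⟨i, hi⟩ = toZ p ((i : ℤ) + 1) := by
  rw [toZ_succ p i hi]
  unfold V
  simp only [Bool.false_eq_true, if_false]
  split_ifs <;> ring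

lemma V_true_lt (p : Equiv.Perm (Fin n) × (Fin n → Bool)) (i j : ℕ) (hi : i < n) (hj : j < n) :
    V true p ⟨i, hi⟩ < V true p ⟨j, hj⟩ ↔ rlt (toZ p ((i : ℤ) + 1)) (toZ p ((j : ℤ) + 1)) := by
  rw [toZ_succ p i hi, toZ_succ p j hj]
  have h1 := (p.1 ⟨i, hi⟩).isLt
  have h2 := (p.1 ⟨j, hj⟩).isLt
  unfold V rlt
  cases hb : p.2 ⟨i, hi⟩ <;> cases hc : p.2 ⟨j, hj⟩ <;>
    simp only [Bool.false_eq_true, if_false, if_true, one_mul] <;>
    simp only [abs_eq_max_neg] <;> omega

lemma mem_Des_iff (r : Bool) (p : Equiv.Perm (Fin n) × (Fin n → Bool)) (i : ℕ) (hi : i < n) :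
    (⟨i, hi⟩ : Fin n) ∈ Des r p ↔
      (if r = true then rlt (toZ p ((i : ℤ) + 1)) (toZ p (i : ℤ))
        else toZ p ((i : ℤ) + 1) < toZ p (i : ℤ)) := by
  simp only [Des, Finset.mem_filter, Finset.mem_univ, true_and]
  rcases Nat.eq_zero_or_pos i with h0 | h0
  · subst h0
    have e : (((0 : ℕ) : ℤ)) = 0 := rfl
    have h1 := toZ_succ p 0 hi
    rw [e] at h1
    have key : (((0 : ℕ) = 0 ∧ p.2 ⟨0, hi⟩ = true) ∨
        ∃ i : Fin n, (0 : ℕ) = i.val + 1 ∧ V r p ⟨0, hi⟩ < V r p i) ↔ p.2 ⟨0, hi⟩ = true := by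
      constructor
      · rintro (h | ⟨i, h, _⟩)
        · exact h.2
        · omega
      · intro h; left; exact ⟨rfl, h⟩
    rw [key, e, h1, toZ_zero]
    unfold rlt
    cases p.2 ⟨0, hi⟩ <;> cases r <;> simp <;> omega
  · obtain ⟨j, rfl⟩ : ∃ j, i = j + 1 := ⟨i - 1, by omega⟩
    have hj : j < n := by omega
    have key : (((j + 1 : ℕ) = 0 ∧ p.2 ⟨j + 1, hi⟩ = true) ∨
        ∃ i : Fin n, (j + 1 : ℕ) = i.val + 1 ∧ V r p ⟨j + 1, hi⟩ < V r p i) ↔
        V r p ⟨j + 1, hi⟩ < V r p ⟨j, hj⟩ := by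
      constructor
      · rintro (h | ⟨i, h, h2⟩)
        · omega
        · have : i = ⟨j, hj⟩ := Fin.ext (by show i.val = j; omega)
          rw [this] at h2; exact h2
      · intro h; right; exact ⟨⟨j, hj⟩, rfl, h⟩
    rw [key]
    have e : (((j + 1 : ℕ) : ℤ)) = (j : ℤ) + 1 := by push_cast; ring
    cases r
    · simp only [Bool.false_eq_true, if_false]
      rw [V_false p (j + 1) hi, V_false p j hj, e]
    · simp only [if_true]
      rw [V_true_lt p (j + 1) j hi hj, e]

/-- positions as natural numbers. -/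
def desNat (r : Bool) (p : Equiv.Perm (Fin n) × (Fin n → Bool)) : Finset ℕ :=
  (Des r p).map Fin.valEmbedding

lemma desSetN_toPerm (p : {p : Equiv.Perm (Fin n) × (Fin n → Bool) // IsInv p}) :
    desSetN n (toPerm p) = desNat false p.1 := by
  ext i
  simp only [desSetN, desNat, Finset.mem_filter, Finset.mem_range, Finset.mem_map, gt_iff_lt,
    toPerm_apply, Fin.valEmbedding_apply]
  constructor
  · rintro ⟨hi, h⟩
    exact ⟨⟨i, hi⟩, (mem_Des_iff false p.1 i hi).mpr (by simpa using h), rfl⟩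
  · rintro ⟨⟨j, hj⟩, h, rfl⟩
    exact ⟨hj, by simpa using (mem_Des_iff false p.1 j hj).mp h⟩

lemma desSetR_toPerm (p : {p : Equiv.Perm (Fin n) × (Fin n → Bool) // IsInv p}) :
    desSetR n (toPerm p) = desNat true p.1 := by
  ext i
  simp only [desSetR, desNat, Finset.mem_filter, Finset.mem_range, Finset.mem_map,
    toPerm_apply, Fin.valEmbedding_apply]
  constructor
  · rintro ⟨hi, h⟩
    exact ⟨⟨i, hi⟩, (mem_Des_iff true p.1 i hi).mpr (by simpa using h), rfl⟩
  · rintro ⟨⟨j, hj⟩, h, rfl⟩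
    exact ⟨hj, by simpa using (mem_Des_iff true p.1 j hj).mp h⟩

open Classical in
lemma ncard_eq (P : Equiv.Perm ℤ → Prop) (Q : Equiv.Perm (Fin n) × (Fin n → Bool) → Prop)
    (h : ∀ p : {p : Equiv.Perm (Fin n) × (Fin n → Bool) // IsInv p}, P (toPerm p) ↔ Q p.1) :
    {w ∈ InvB n | P w}.ncard = ((Finset.univ : Finset (Equiv.Perm (Fin n) × (Fin n → Bool))).filter
      (fun p => IsInv p ∧ Q p)).card := by
  rw [← Set.ncard_coe_finset]
  symm
  refine Set.ncard_congr (fun p hp => toPerm ⟨p, ?_⟩) ?_ ?_ ?_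
  · simp only [Finset.coe_filter, Finset.mem_univ, true_and] at hp
    exact hp.1
  · intro p hp
    simp only [Finset.coe_filter, Finset.mem_univ, true_and] at hp
    exact ⟨toPerm_mem _, (h ⟨p, hp.1⟩).mpr hp.2⟩
  · intro p q hp hq he
    exact congrArg Subtype.val (toPerm_inj he)
  · rintro w ⟨hw, hP⟩
    obtain ⟨p, rfl⟩ := toPerm_surj w hw
    refine ⟨p.1, ?_, rfl⟩
    simp only [Finset.coe_filter, Finset.mem_univ, true_and]
    exact ⟨p.2, (h p).mp hP⟩

lemma finite_InvB (n : ℕ) : (InvB n).Finite := by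
  have : InvB n ⊆ Set.range (toPerm (n := n)) := fun w hw => toPerm_surj w hw
  exact (Set.finite_range _).subset this

open Classical in
lemma setDist (n : ℕ) (S : Finset ℕ) : {w ∈ InvB n | desSetR n w = S}.ncard =
    {w ∈ InvB n | desSetN n w = S}.ncard := by
  rw [ncard_eq (fun w => desSetR n w = S) (fun p => desNat true p = S)
    (fun p => by rw [desSetR_toPerm]),
    ncard_eq (fun w => desSetN n w = S) (fun p => desNat false p = S)
    (fun p => by rw [desSetN_toPerm])]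
  by_cases hS : ∀ i ∈ S, i < n
  · obtain ⟨S', hS'⟩ : ∃ S' : Finset (Fin n), S'.map Fin.valEmbedding = S := by
      refine ⟨Finset.univ.filter (fun i : Fin n => i.val ∈ S), ?_⟩
      ext i
      simp only [Finset.mem_map, Finset.mem_filter, Finset.mem_univ, true_and,
        Fin.valEmbedding_apply]
      constructor
      · rintro ⟨j, hj, rfl⟩; exact hj
      · intro hi; exact ⟨⟨i, hS i hi⟩, hi, rfl⟩
    have e : ∀ (r : Bool) (p : Equiv.Perm (Fin n) × (Fin n → Bool)),
        desNat r p = S ↔ Des r p = S' := by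
      intro r p
      rw [desNat, ← hS']
      exact (Finset.map_injective Fin.valEmbedding).eq_iff
    simp only [e]
    exact (card_eq S').symm
  · push Not at hS
    obtain ⟨i, hi, hin⟩ := hS
    have e : ∀ (r : Bool), ∀ ⦃p : Equiv.Perm (Fin n) × (Fin n → Bool)⦄,
        p ∈ (Finset.univ : Finset (Equiv.Perm (Fin n) × (Fin n → Bool))) →
        ¬ (IsInv p ∧ desNat r p = S) := by
      rintro r p - ⟨-, h⟩
      rw [← h, desNat, Finset.mem_map] at hi
      obtain ⟨j, _, rfl⟩ := hi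
      exact absurd j.isLt (not_lt.mpr hin)
    refine (Finset.card_eq_zero.mpr ?_).trans (Finset.card_eq_zero.mpr ?_).symm
    · apply Finset.eq_empty_of_forall_notMem
      intro p hp
      simp only [Finset.mem_filter] at hp
      exact e true hp.1 hp.2
    · apply Finset.eq_empty_of_forall_notMem
      intro p hp
      simp only [Finset.mem_filter] at hp
      exact e false hp.1 hp.2

/-- For every `n` the descent sets for the order `-1 < -2 < ... < 0 < 1 < ...` and for the usual order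
are equidistributed on the involutions of `B_n`; in particular so are the descent numbers. -/
theorem result (n : ℕ) : (InvB n).Finite ∧
    (∀ S : Finset ℕ, {w ∈ InvB n | desSetR n w = S}.ncard =
      {w ∈ InvB n | desSetN n w = S}.ncard) ∧
    ∀ k : ℕ, {w ∈ InvB n | (desSetR n w).card = k}.ncard =
      {w ∈ InvB n | (desSetN n w).card = k}.ncard := by
  classical
  refine ⟨finite_InvB n, setDist n, fun k => ?_⟩
  have key : ∀ f : Equiv.Perm ℤ → Finset ℕ, (∀ w, f w ⊆ range n) →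
      {w ∈ InvB n | (f w).card = k}.ncard =
      ∑ S ∈ (range n).powerset.filter (fun S => S.card = k), {w ∈ InvB n | f w = S}.ncard := by
    intro f hf
    have hfin := finite_InvB n
    have e0 : ∀ P : Equiv.Perm ℤ → Prop, {w ∈ InvB n | P w}.ncard =
        (hfin.toFinset.filter P).card := by
      intro P
      rw [← Set.ncard_coe_finset]
      congr 1
      ext w
      simp
    simp only [e0]
    rw [← Finset.card_biUnion]
    · congr 1
      ext w
      simp only [Finset.mem_filter, Finset.mem_biUnion, Finset.mem_powerset]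
      constructor
      · rintro ⟨h1, h2⟩
        exact ⟨f w, ⟨hf w, h2⟩, h1, rfl⟩
      · rintro ⟨S, ⟨h1, h2⟩, h3, h4⟩
        exact ⟨h3, h4 ▸ h2⟩
    · intro S _ S' _ hne
      rw [Function.onFun, Finset.disjoint_left]
      intro w h1 h2
      simp only [Finset.mem_filter] at h1 h2
      exact hne (h1.2.symm.trans h2.2)
  rw [key (desSetR n) (fun w => Finset.filter_subset _ _),
    key (desSetN n) (fun w => Finset.filter_subset _ _)]
  exact Finset.sum_congr rfl fun S _ => setDist n S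

end Pool.Agent.Results.MP_eb5881_co.DescentSets
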